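import Pool.Agent.H94.FJ.M21
import Pool.Agent.H94.FJ.M22

/-!
# Semilocal rings and rings of characteristic `p`
-/

set_option autoImplicit false

open Matrix

universe u v w

namespace Pool.Agent.H71.DO

open Pool.Agent.H95.WH (K1 K1.mk K1.unit K1.map FinSub detU det_semi)

theorem hArt_field (k : Type u) [Field k] : HArt.{u, v} k :=
  fun F _ _ x => Pool.Agent.H95.WH.artin_K1_anyField k F x

theorem hArt_charP (k : Type u) [CommRing k] (p : ℕ) [Fact p.Prime] [CharP k p] : HArt.{u, v} k :=
  fun F _ _ x => Pool.Agent.H95.WH.artin_K1_charP k F p x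

end Pool.Agent.H71.DO
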