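import Pool.Agent.H94.FJ.M21
import Pool.Agent.H94.FJ.M22

/-!
# The classes of rings
-/

set_option autoImplicit false
set_option linter.unusedSectionVars false

open Matrix

universe u v w

namespace Pool.Agent.H71.DO

open Pool.Agent.H95.WH (K1 K1.mk K1.unit K1.map K1.map_unit K1.map_map K1_map_conj FamSub conjHom K1.lift K1.lift_mk FinSub K1.hom_ext K1.unit_mul K1.mk_mul detU det_semi GLAll K1Rel)

theorem K1_induction {A : Type u} [Ring A] {P : K1 A → Prop} (h0 : P 0)
    (h1 : ∀ (n : ℕ) (U : (Matrix (Fin n) (Fin n) A)ˣ), P (K1.mk U))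
    (h2 : ∀ a b, P a → P b → P (a + b)) (h3 : ∀ a, P a → P (-a)) (z : K1 A) : P z := by
  obtain ⟨y, rfl⟩ : ∃ y, QuotientAddGroup.mk' (K1Rel A) y = z := QuotientAddGroup.mk_surjective z
  induction y using FreeAbelianGroup.induction_on with
  | zero => rw [map_zero]; exact h0
  | of x => exact h1 x.1 x.2
  | neg x _ =>
    rw [map_neg]
    exact h3 _ (h1 x.1 x.2)
  | add x y hx hy => rw [map_add]; exact h2 _ _ hx hy

theorem K1_unit_one (A : Type u) [Ring A] : K1.unit (1 : Aˣ) = 0 := by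
  have h := K1.unit_mul (1 : Aˣ) 1
  rw [one_mul] at h
  exact left_eq_add.1 h

theorem K1_unit_inv {A : Type u} [Ring A] (u : Aˣ) : K1.unit u⁻¹ = -K1.unit u := by
  have h := K1.unit_mul u⁻¹ u
  rw [inv_mul_cancel, K1_unit_one] at h
  exact eq_neg_of_add_eq_zero_left h.symm

theorem K1_unit_pow {A : Type u} [Ring A] (u : Aˣ) (n : ℕ) : K1.unit (u ^ n) = n • K1.unit u := by
  induction n with
  | zero => rw [pow_zero, K1_unit_one, zero_smul]
  | succ n ih => rw [pow_succ, K1.unit_mul, ih, succ_nsmul]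

/-- If the class of every invertible matrix is the class of a unit up to torsion then `K₁` is
generated by units up to torsion. -/
theorem unit_of_mk {A : Type u} [Ring A]
    (h : ∀ (n : ℕ) (U : (Matrix (Fin n) (Fin n) A)ˣ),
      ∃ (m : ℕ) (x : Aˣ), 0 < m ∧ m • K1.mk U = K1.unit x) (y : K1 A) :
    ∃ (m : ℕ) (x : Aˣ), 0 < m ∧ m • y = K1.unit x := by
  have key : ∃ (m : ℕ) (x : Aˣ), 0 < m ∧ m • y = K1.unit x ∧ True := by
    induction y using K1_induction with
    | h0 => exact ⟨1, 1, one_pos, by rw [K1_unit_one, smul_zero], trivial⟩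
    | h1 n U =>
      obtain ⟨m, x, hm, hx⟩ := h n U
      exact ⟨m, x, hm, hx, trivial⟩
    | h2 a b ha hb =>
      obtain ⟨m, x, hm, hx, -⟩ := ha
      obtain ⟨m', x', hm', hx', -⟩ := hb
      refine ⟨m * m', x ^ m' * x' ^ m, Nat.mul_pos hm hm', ?_, trivial⟩
      rw [K1.unit_mul, K1_unit_pow, K1_unit_pow, ← hx, ← hx', smul_smul, smul_smul, smul_add,
        mul_comm m' m]
    | h3 a ha =>
      obtain ⟨m, x, hm, hx, -⟩ := ha
      exact ⟨m, x⁻¹, hm, by rw [K1_unit_inv, smul_neg, hx], trivial⟩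
  obtain ⟨m, x, hm, hx, -⟩ := key
  exact ⟨m, x, hm, hx⟩

theorem hUnit_field (k : Type u) [Field k] : HUnit.{u, v} k := by
  intro C _ _ _
  letI : CommGroup C := IsCyclic.commGroup
  apply unit_of_mk
  intro n U
  have : IsArtinianRing (MonoidAlgebra k C) := by
    have : Module.Finite k (MonoidAlgebra k C) := by
      have := Fintype.ofFinite C
      exact Module.Finite.of_basis (ι := C) (MonoidAlgebra.basis C k)
    exact IsArtinianRing.of_finite k (MonoidAlgebra k C)
  exact ⟨1, detU U, one_pos, by rw [one_smul]; exact det_semi U⟩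

theorem hArt_of (R : Type u) [CommRing R]
    (hR : ∀ n : ℕ, n ≠ 0 → Finite (R ⧸ Ideal.span {(n : R)})) : HArt.{u, v} R :=
  fun F _ _ x => Pool.Agent.H95.WH.artin_K1R R F hR x

end Pool.Agent.H71.DO
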